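import Pool.Agent.helper17.EXC.Spec

/-!
# Project EXC (MP_561ff4_al), row BMN: the case of primes `r` different from `p`
-/

set_option autoImplicit false

open Finset

namespace Pool.Agent.EXC

theorem BMN_finite {n : ℕ} (C : Matrix (Fin n) (Fin n) ℤ) [IsC C] (F : Type) [Field F] [Finite F] :
    Finite (EG C F) := by
  have h1 : Finite (Lm C F ≃ₗ[F] Lm C F) :=
    Finite.of_injective (fun e : Lm C F ≃ₗ[F] Lm C F => (e : Lm C F → Lm C F)) DFunLike.coe_injective
  exact Subtype.finite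

theorem BMN (hGEO : GEO_stmt) (hPRD : PRD_stmt) (hGRP : GRP_stmt) (hLS2 : LS2_stmt) (hL31 : L31_stmt)
    (hL61 : L61_stmt) (hL62 : L62_stmt) : BMN_stmt := by
  intro n C _ F _ _ j0 θ δ hE x hRA hx r hr hrq
  obtain ⟨a, a', m, ha, ha', hIm, hTp, hm⟩ := hGEO n C F j0 θ δ hE x hRA hx
  obtain ⟨t, N, hdet, hN, hprod⟩ := hPRD n C F j0 θ δ hE x a a' m ha ha' hIm hTp hm
  have := BMN_finite C F
  have key : ∀ (k : ℕ) (y : Fin k → Matrix (Fin 6) (Fin 6) F), 1 ≤ k → (∀ i, Cl N (y i)) →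
      NSc r (List.ofFn y).prod → 2 * k ∈ Pool.Agent.GS.CSet r x := by
    intro k y hk hy hns
    obtain ⟨g, hg⟩ := hprod k y hy
    exact hGRP (EG C F) x t r k g hk (fun j hj => hns j (hg j hj))
  have key2 : ∀ y1 y2 : Matrix (Fin 6) (Fin 6) F, Cl N y1 → Cl N y2 → NSc r (y1 * y2) →
      4 ∈ Pool.Agent.GS.CSet r x := by
    intro y1 y2 h1 h2 h3
    refine key 2 ![y1, y2] (by norm_num) (fun i => ?_) ?_
    · fin_cases i
      · exact h1
      · exact h2
    · have e : (List.ofFn ![y1, y2]).prod = y1 * y2 := by simp [List.ofFn_succ]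
      rw [e]
      exact h3
  have key3 : ∀ y1 y2 y3 : Matrix (Fin 6) (Fin 6) F, Cl N y1 → Cl N y2 → Cl N y3 →
      NSc r (y1 * y2 * y3) → 6 ∈ Pool.Agent.GS.CSet r x := by
    intro y1 y2 y3 h1 h2 h3 h4
    refine key 3 ![y1, y2, y3] (by norm_num) (fun i => ?_) ?_
    · fin_cases i
      · exact h1
      · exact h2
      · exact h3
    · have e : (List.ofFn ![y1, y2, y3]).prod = y1 * y2 * y3 := by simp [List.ofFn_succ, mul_assoc]
      rw [e]
      exact h4
  constructor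
  · intro h4
    obtain ⟨y1, y2, h1, h2, h3⟩ := hLS2 F r hr hrq h4 N hdet
    exact key2 y1 y2 h1 h2 h3
  · intro h6 h2
    by_cases h3 : r ∣ Nat.card F ^ 3 - 1
    · have h1 : ¬ r ∣ Nat.card F - 1 := by
        intro hcon
        apply h2
        have e := Nat.sub_dvd_pow_sub_pow (Nat.card F) 1 2
        rw [one_pow] at e
        exact hcon.trans e
      obtain ⟨y1, y2, y3, c1, c2, c3, c4⟩ := hL31 F r hr hrq h3 h1 N hdet hN
      exact key3 y1 y2 y3 c1 c2 c3 c4
    · rcases hN with hN | hN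
      · obtain ⟨y1, y2, y3, c1, c2, c3, c4⟩ := hL62 F r hr hrq h6 h2 h3
        subst hN
        exact key3 y1 y2 y3 c1 c2 c3 c4
      · obtain ⟨y1, y2, y3, c1, c2, c3, c4⟩ := hL61 F r hr hrq h6 h2 h3 N hdet hN
        exact key3 y1 y2 y3 c1 c2 c3 c4

end Pool.Agent.EXC
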