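import Pool.Agent.helper17.EXC.Spec

/-!
# Project EXC (MP_561ff4_al), row BPW: the case `r = p`
-/

set_option autoImplicit false

open Finset

namespace Pool.Agent.EXC

theorem BPW_xe_zero {n : ℕ} {C : Matrix (Fin n) (Fin n) ℤ} [IsC C] {F : Type} [Field F] (a v : Lm C F) :
    xe C a 0 v = v := by
  unfold xe
  rw [zero_smul, add_zero]
  have : (0 : F) ^ 2 * fm C a v = 0 := by ring
  rw [this, zero_smul, add_zero]

theorem BPW_finite {n : ℕ} (C : Matrix (Fin n) (Fin n) ℤ) [IsC C] (F : Type) [Field F] [Finite F] :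
    Finite (EG C F) := by
  have h1 : Finite (Lm C F ≃ₗ[F] Lm C F) :=
    Finite.of_injective (fun e : Lm C F ≃ₗ[F] Lm C F => (e : Lm C F → Lm C F)) DFunLike.coe_injective
  exact Subtype.finite

theorem BPW_inv {n : ℕ} {C : Matrix (Fin n) (Fin n) ℤ} [IsC C] {F : Type} [Field F] (hEXF : EXF_stmt)
    (hβ : ∀ α, ip C α α = 2 → ∃ β, ip C β β = 2 ∧ ip C α β = -1) (a : Lm C F) (ha : Ex C a)
    (g : Lm C F ≃ₗ[F] Lm C F) (t : F) (hg : IsX C a t g) : IsX C a (-t) g⁻¹ := by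
  obtain ⟨-, -, h3, -⟩ := hEXF n C F hβ
  obtain ⟨-, -, -, -, hex, -, -, -, hadd⟩ := h3 a ha
  obtain ⟨k, -, hk⟩ := hex (-t)
  have h1 := hadd (-t) t k g hk hg
  rw [neg_add_cancel] at h1
  have h2 : k * g = 1 := by
    apply LinearEquiv.ext
    intro v
    rw [h1 v, BPW_xe_zero]
    rfl
  have h3 : k = g⁻¹ := eq_inv_of_mul_eq_one_left h2
  rw [← h3]
  exact hk

theorem BPW (hRPX : RPX_stmt) (hPEL : PEL_stmt) (hFIX : FIX_stmt) (hEXF : EXF_stmt) (hGRP : GRP_stmt)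
    (hNBR : NBR_stmt) : BPW_stmt := by
  intro n C _ F _ _ j0 θ δ hE x hRA hx p hp hchar
  have hβ := (hNBR n C j0 θ δ hE).1
  obtain ⟨a, a', m, hExa, hExa', hIm, hTp, hm, h, ⟨t0, hXt⟩, hxh⟩ := hRPX n C F j0 θ δ hE x hRA hx
  obtain ⟨t1, hXt1⟩ := (hIm h).1 ⟨t0, hXt⟩
  have hinv := BPW_inv hEXF hβ a hExa _ t0 hXt
  have hpow := hPEL n C F θ hE.th2 hβ p hp hchar a a' m hTp hm _ _ ⟨-t0, hinv⟩ ⟨t1, hXt1⟩
  have hY : (x h * h⁻¹) ^ (p ^ 2) = 1 := by
    apply Subtype.ext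
    exact hpow
  have := BPW_finite C F
  have hG := hGRP (EG C F) x h p 1 (fun _ => 1) le_rfl
  apply hG
  intro m' hm'
  have e1 : (List.ofFn fun _ : Fin 1 => (1 : EG C F) * (x h * h⁻¹) * (1 : EG C F)⁻¹).prod = x h * h⁻¹ := by
    simp
  rw [e1] at hm'
  have hc1 : MulAut.conj (x h * h⁻¹) ≠ 1 := by
    intro hcon
    have h1 : x h * h⁻¹ = 1 := by
      apply (hFIX n C F j0 θ δ hE).2
      intro g
      have h2 : MulAut.conj (x h * h⁻¹) g = g := by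
        rw [hcon]
        rfl
      rw [MulAut.conj_apply, mul_inv_eq_iff_eq_mul] at h2
      exact h2
    exact hxh (mul_inv_eq_one.1 h1)
  have hcp : MulAut.conj (x h * h⁻¹) ^ (p ^ 2) = 1 := by
    rw [← map_pow, hY, map_one]
  obtain ⟨k, hk2, hk⟩ := (Nat.dvd_prime_pow hp).1 (orderOf_dvd_of_pow_eq_one hcp)
  have hk0 : k ≠ 0 := by
    rintro rfl
    rw [pow_zero, orderOf_eq_one_iff] at hk
    exact hc1 hk
  have h5 : p ∣ orderOf (MulAut.conj (x h * h⁻¹)) := by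
    rw [hk]
    exact dvd_pow_self p hk0
  exact h5.trans (orderOf_dvd_of_pow_eq_one hm')

end Pool.Agent.EXC
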